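import Pool.Agent.Helper54.SAW.ThmA

set_option autoImplicit false

namespace Pool.Agent.Helper54.SAW

open Finset

theorem fy_fy (s : St) : fy (fy s) = s := by
  rcases s with ⟨i, b⟩
  unfold fy
  by_cases h : i = 1 <;> simp [h]

theorem map_fy_injective : Function.Injective (List.map fy) := by
  apply List.map_injective_iff.2
  intro a b h
  rw [← fy_fy a, ← fy_fy b, h]

theorem act_injective {k : ℕ} (g : SPerm k) : Function.Injective (act g) := by
  intro f f' h
  funext i
  have := congrFun h (g.1.symm i)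
  unfold act at this
  simp only [Equiv.apply_symm_apply] at this
  by_cases hb : g.2 (g.1.symm i)
  · simpa [hb] using this
  · simp only [hb, Bool.false_eq_true, if_false] at this
    exact map_fy_injective this

theorem X_flatten_ofFn {k : ℕ} (f : Fin k → List St) :
    X (List.ofFn f).flatten = ∑ i, X (f i) := by
  unfold X
  rw [List.map_flatten, List.sum_flatten, List.map_map, List.map_ofFn, List.sum_ofFn]
  rfl

theorem X_pos_of_piece {p : List St} (h : Piece p) : 0 < X p :=
  h.2.2.1 p [] (by simp) h.1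

open Classical in
theorem class_k (n r k : ℕ) (F : ℤ) (S : Finset (List St))
    (hS : ∀ l, l ∈ S ↔ l ∈ Far n F ∧ ∃ (α : List St) (f : Fin k → List St) (β : List St),
      l = α ++ (List.ofFn f).flatten ++ β ∧ Dec r α (List.ofFn f) β) :
    ∑ l ∈ S, (nFold r l : ℝ) ≤ 320 * Real.sqrt ((r : ℝ) + 1) * (S.card : ℝ) := by
  have hc : ∀ l : List St, ∃ (α : List St) (f : Fin k → List St) (β : List St), l ∈ S →
      l = α ++ (List.ofFn f).flatten ++ β ∧ Dec r α (List.ofFn f) β := by
    intro l
    by_cases hl : l ∈ S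
    · obtain ⟨α, f, β, h⟩ := ((hS l).1 hl).2
      exact ⟨α, f, β, fun _ => h⟩
    · exact ⟨[], fun _ => [], [], fun h => absurd h hl⟩
  choose α f β hd using hc
  set a : SPerm k → List St → List St :=
    fun g l => α l ++ (List.ofFn (act g (f l))).flatten ++ β l with ha
  have hlen : ∀ g l, l ∈ S → (a g l).length = l.length := by
    intro g l hl
    obtain ⟨h1, h2⟩ := hd l hl
    have h3 := (dec_act r k (α l) (β l) (f l) g h2).2.1
    conv_rhs => rw [h1]
    simp only [ha, List.length_append, h3]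
  have hX : ∀ g l, l ∈ S → X (a g l) = X l := by
    intro g l hl
    obtain ⟨h1, h2⟩ := hd l hl
    have h3 := (dec_act r k (α l) (β l) (f l) g h2).2.2
    conv_rhs => rw [h1]
    simp only [ha]
    unfold X at *
    simp only [List.map_append, List.sum_append] at *
    rw [h3]
  apply avg S a
  · intro g l hl
    obtain ⟨h1, h2⟩ := hd l hl
    have h3 := (dec_act r k (α l) (β l) (f l) g h2).1
    rw [hS]
    refine ⟨?_, α l, act g (f l), β l, rfl, h3⟩
    have h4 := ((hS l).1 hl).1
    unfold Far at h4 ⊢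
    rw [mem_filter, mem_SAWs] at h4 ⊢
    exact ⟨⟨by rw [hlen g l hl]; exact h4.1.1, dec_saw r _ _ _ h3⟩, by rw [hX g l hl]; exact h4.2⟩
  · intro g l hl l' hl' he
    obtain ⟨h1, h2⟩ := hd l hl
    obtain ⟨h1', h2'⟩ := hd l' hl'
    have h3 := (dec_act r k (α l) (β l) (f l) g h2).1
    have h3' := (dec_act r k (α l') (β l') (f l') g h2').1
    obtain ⟨e1, e2, e3⟩ := dec_unique r _ _ _ _ _ _ h3 h3' he
    have e4 : f l = f l' := act_injective g (List.ofFn_injective e2)
    rw [h1, h1', e1, e3, e4]
  · intro l hl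
    obtain ⟨h1, h2⟩ := hd l hl
    have hp : ∀ i, Piece (f l i) := fun i => h2.2.2.2.2.1 _ (by rw [List.mem_ofFn]; exact ⟨i, rfl⟩)
    have hw : ∀ i, 1 ≤ (X (f l i)).toNat := by
      intro i
      have := X_pos_of_piece (hp i)
      omega
    have hR : ∑ i, (X (f l i)).toNat ≤ r := by
      have e1 : ((∑ i, (X (f l i)).toNat : ℕ) : ℤ) = X (List.ofFn (f l)).flatten := by
        rw [X_flatten_ofFn]
        push_cast
        apply sum_congr rfl
        intro i _
        have := X_pos_of_piece (hp i)
        omega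
      have h5 := h2.2.2.2.2.2.1
      have h6 := h2.2.2.2.2.2.2.1
      rw [abs_le] at h5 h6
      omega
    have h7 := thmA k (fun i => (X (f l i)).toNat) hw (fun i => Y (f l i)) r hR
    refine le_trans (sum_le_sum ?_) h7
    intro g _
    exact_mod_cast dec_nFold r k (α l) (β l) (f l) g h2

open Classical in
theorem class_bound (n r : ℕ) (F : ℤ) :
    ∑ l ∈ Far n F, (nFold r l : ℝ) ≤ 320 * Real.sqrt ((r : ℝ) + 1) * ((Far n F).card : ℝ) := by
  set D : List St → ℕ → Prop := fun l k => ∃ (α : List St) (f : Fin k → List St) (β : List St),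
      l = α ++ (List.ofFn f).flatten ++ β ∧ Dec r α (List.ofFn f) β with hD
  have huniq : ∀ l k k', D l k → D l k' → k = k' := by
    rintro l k k' ⟨α, f, β, h1, h2⟩ ⟨α', f', β', h1', h2'⟩
    obtain ⟨-, e, -⟩ := dec_unique r _ _ _ _ _ _ h2 h2' (by rw [← h1, ← h1'])
    have := congrArg List.length e
    simpa using this
  set S' := (Far n F).filter (fun l => ∃ k, D l k) with hS'
  have hc : ∀ l : List St, ∃ k, l ∈ S' → D l k := by
    intro l
    by_cases hl : l ∈ S'
    · obtain ⟨k, hk⟩ := (mem_filter.1 hl).2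
      exact ⟨k, fun _ => hk⟩
    · exact ⟨0, fun h => absurd h hl⟩
  choose kk hkk using hc
  have h1 : ∑ l ∈ Far n F, (nFold r l : ℝ) = ∑ l ∈ S', (nFold r l : ℝ) := by
    symm
    apply sum_subset (filter_subset _ _)
    intro l hl hn
    by_contra hne
    apply hn
    rw [mem_filter]
    refine ⟨hl, ?_⟩
    have hsaw : Saw l := by
      unfold Far at hl
      rw [mem_filter, mem_SAWs] at hl
      exact hl.1.2
    obtain ⟨α, P, β, h2, h3⟩ := dec_exists r l hsaw (by
      intro h0
      apply hne
      exact_mod_cast h0)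
    refine ⟨P.length, α, P.get, β, ?_, ?_⟩
    · rw [List.ofFn_get]; exact h2
    · rw [List.ofFn_get]; exact h3
  have h2 : ∀ k ∈ S'.image kk, ∑ l ∈ S' with kk l = k, (nFold r l : ℝ) ≤
      320 * Real.sqrt ((r : ℝ) + 1) * ((S'.filter (fun l => kk l = k)).card : ℝ) := by
    intro k _
    apply class_k n r k F
    intro l
    rw [mem_filter]
    constructor
    · rintro ⟨hl, rfl⟩
      exact ⟨(mem_filter.1 hl).1, hkk l hl⟩
    · rintro ⟨hl, hd⟩
      have hl' : l ∈ S' := mem_filter.2 ⟨hl, k, hd⟩
      exact ⟨hl', huniq l _ _ (hkk l hl') hd⟩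
  rw [h1, ← sum_fiberwise_of_maps_to (t := S'.image kk) (fun l hl => mem_image_of_mem kk hl)]
  refine (sum_le_sum h2).trans ?_
  rw [← mul_sum]
  apply mul_le_mul_of_nonneg_left _ (by positivity)
  have h3 : (S'.card : ℝ) = ∑ k ∈ S'.image kk, ((S'.filter (fun l => kk l = k)).card : ℝ) := by
    exact_mod_cast card_eq_sum_card_fiberwise (fun l hl => mem_image_of_mem kk hl)
  rw [← h3]
  exact_mod_cast card_le_card (filter_subset _ _)

end Pool.Agent.Helper54.SAW
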