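import Pool.Agent.Helper54.SAW.Defs

set_option autoImplicit false

namespace Pool.Agent.Helper54.SAW

open Finset

theorem mem_lists {α : Type*} [Fintype α] [DecidableEq α] {n : ℕ} {l : List α} :
    l ∈ lists α n ↔ l.length = n := by
  unfold lists
  simp only [mem_image, mem_univ, true_and]
  constructor
  · rintro ⟨f, rfl⟩; simp
  · rintro rfl; exact ⟨l.get, List.ofFn_get l⟩

/-- an injective self-map of a finite set does not change sums -/
theorem sum_comp_inj {Ω M : Type*} [DecidableEq Ω] [AddCommMonoid M] (S : Finset Ω) (φ : Ω → Ω)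
    (h1 : ∀ x ∈ S, φ x ∈ S) (h2 : Set.InjOn φ S) (F : Ω → M) :
    ∑ x ∈ S, F (φ x) = ∑ x ∈ S, F x := by
  have h : S.image φ = S := by
    apply eq_of_subset_of_card_le
    · intro y hy
      obtain ⟨x, hx, rfl⟩ := mem_image.1 hy
      exact h1 x hx
    · rw [card_image_of_injOn h2]
  calc ∑ x ∈ S, F (φ x) = ∑ x ∈ S.image φ, F x := (sum_image h2).symm
    _ = _ := by rw [h]

/-- averaging over a group acting by bijections -/
theorem avg {Ω G : Type*} [Fintype G] [DecidableEq Ω] (S : Finset Ω) (a : G → Ω → Ω)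
    (h1 : ∀ g, ∀ ω ∈ S, a g ω ∈ S) (h2 : ∀ g, Set.InjOn (a g) S) (F : Ω → ℝ) (c : ℝ)
    (hF : ∀ ω ∈ S, ∑ g : G, F (a g ω) ≤ c * (Fintype.card G : ℝ)) [Nonempty G] :
    ∑ ω ∈ S, F ω ≤ c * (S.card : ℝ) := by
  have hG : (0 : ℝ) < Fintype.card G := by exact_mod_cast Fintype.card_pos
  have e1 : ∑ ω ∈ S, ∑ g : G, F (a g ω) = (Fintype.card G : ℝ) * ∑ ω ∈ S, F ω := by
    rw [sum_comm]
    rw [sum_congr rfl (fun g _ => sum_comp_inj S (a g) (h1 g) (h2 g) F)]
    simp [Finset.card_univ]
  have e2 : ∑ ω ∈ S, ∑ g : G, F (a g ω) ≤ ∑ ω ∈ S, c * (Fintype.card G : ℝ) := sum_le_sum hF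
  rw [e1, sum_const, nsmul_eq_mul] at e2
  have : (Fintype.card G : ℝ) * ∑ ω ∈ S, F ω ≤ (Fintype.card G : ℝ) * (c * (S.card : ℝ)) := by
    linarith
  exact le_of_mul_le_mul_left this hG

section A

variable {ι : Type*} [Fintype ι] [DecidableEq ι]

omit [Fintype ι] in
theorem supp_append (a b : List (ι × Bool)) : supp (a ++ b) = supp a ∪ supp b := by
  simp [supp]

omit [Fintype ι] in
theorem supp_perm {a b : List (ι × Bool)} (h : a.Perm b) : supp a = supp b := by
  unfold supp
  exact List.toFinset_eq_of_perm _ _ (h.map _)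

omit [Fintype ι] in
theorem card_supp {l : List (ι × Bool)} (h : (l.map Prod.fst).Nodup) :
    (supp l).card = l.length := by
  unfold supp
  rw [List.toFinset_card_of_nodup h]
  simp

theorem mem_arr {T : Finset ι} {l : List (ι × Bool)} :
    l ∈ arr T ↔ (l.map Prod.fst).Nodup ∧ supp l = T := by
  unfold arr
  rw [mem_filter, mem_lists]
  constructor
  · exact fun h => h.2
  · rintro ⟨h1, h2⟩
    exact ⟨by rw [← h2, card_supp h1], h1, h2⟩

theorem mem_parr {T : Finset ι} {q : ℕ} {l : List (ι × Bool)} :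
    l ∈ parr T q ↔ l.length = q ∧ (l.map Prod.fst).Nodup ∧ supp l ⊆ T := by
  unfold parr
  rw [mem_filter, mem_lists]

theorem length_arr {T : Finset ι} {l : List (ι × Bool)} (h : l ∈ arr T) : l.length = T.card := by
  rw [mem_arr] at h
  rw [← h.2, card_supp h.1]

theorem arr_perm {T : Finset ι} {l l' : List (ι × Bool)} (h : l ∈ arr T) (hp : l'.Perm l) :
    l' ∈ arr T := by
  rw [mem_arr] at h ⊢
  exact ⟨(hp.map _).nodup_iff.2 h.1, by rw [supp_perm hp, h.2]⟩

omit [Fintype ι] [DecidableEq ι] in
theorem map_fst_flipS (l : List (ι × Bool)) : (flipS l).map Prod.fst = l.map Prod.fst := by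
  simp [flipS, Function.comp_def]

theorem arr_flipS {T : Finset ι} {l : List (ι × Bool)} (h : l ∈ arr T) : flipS l ∈ arr T := by
  rw [mem_arr] at h ⊢
  unfold supp at *
  rw [map_fst_flipS]
  exact h

omit [Fintype ι] [DecidableEq ι] in
theorem flipS_flipS (l : List (ι × Bool)) : flipS (flipS l) = l := by
  simp [flipS, Function.comp_def]

omit [Fintype ι] [DecidableEq ι] in
theorem flipS_append (a b : List (ι × Bool)) : flipS (a ++ b) = flipS a ++ flipS b := by
  simp [flipS]

omit [Fintype ι] [DecidableEq ι] in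
theorem flipS_take (a : List (ι × Bool)) (n : ℕ) : (flipS a).take n = flipS (a.take n) := by
  simp [flipS, List.map_take]

omit [Fintype ι] [DecidableEq ι] in
theorem flipS_drop (a : List (ι × Bool)) (n : ℕ) : (flipS a).drop n = flipS (a.drop n) := by
  simp [flipS, List.map_drop]

omit [Fintype ι] [DecidableEq ι] in
theorem Wd_nil (w : ι → ℕ) : Wd w [] = 0 := rfl

omit [Fintype ι] [DecidableEq ι] in
theorem Ht_nil (v : ι → ℤ) : Ht v [] = 0 := rfl

omit [Fintype ι] [DecidableEq ι] in
theorem Wd_cons (w : ι → ℕ) (x : ι × Bool) (l : List (ι × Bool)) :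
    Wd w (x :: l) = (w x.1 : ℤ) + Wd w l := by simp [Wd]

omit [Fintype ι] [DecidableEq ι] in
theorem Ht_cons (v : ι → ℤ) (x : ι × Bool) (l : List (ι × Bool)) :
    Ht v (x :: l) = (if x.2 then v x.1 else -v x.1) + Ht v l := by simp [Ht]

omit [Fintype ι] [DecidableEq ι] in
theorem Wd_append (w : ι → ℕ) (a b : List (ι × Bool)) : Wd w (a ++ b) = Wd w a + Wd w b := by
  simp [Wd]

omit [Fintype ι] [DecidableEq ι] in
theorem Ht_append (v : ι → ℤ) (a b : List (ι × Bool)) : Ht v (a ++ b) = Ht v a + Ht v b := by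
  simp [Ht]

omit [Fintype ι] [DecidableEq ι] in
theorem Wd_perm (w : ι → ℕ) {a b : List (ι × Bool)} (h : a.Perm b) : Wd w a = Wd w b := by
  unfold Wd
  exact (h.map _).sum_eq

omit [Fintype ι] [DecidableEq ι] in
theorem Ht_perm (v : ι → ℤ) {a b : List (ι × Bool)} (h : a.Perm b) : Ht v a = Ht v b := by
  unfold Ht
  exact (h.map _).sum_eq

omit [Fintype ι] [DecidableEq ι] in
theorem Wd_flipS (w : ι → ℕ) (l : List (ι × Bool)) : Wd w (flipS l) = Wd w l := by
  simp [Wd, flipS, Function.comp_def]

omit [Fintype ι] [DecidableEq ι] in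
theorem Ht_flipS (v : ι → ℤ) (l : List (ι × Bool)) : Ht v (flipS l) = -Ht v l := by
  induction l with
  | nil => simp [flipS, Ht]
  | cons x l ih =>
    have : flipS (x :: l) = (x.1, !x.2) :: flipS l := rfl
    rw [this, Ht_cons, Ht_cons, ih]
    rcases x with ⟨i, b⟩
    cases b <;> simp <;> ring

omit [Fintype ι] [DecidableEq ι] in
theorem expl_append (w : ι → ℕ) (d : ℤ) (a b : List (ι × Bool)) :
    expl w d (a ++ b) = expl w (expl w d a) b := by
  induction a generalizing d with
  | nil => rfl
  | cons x a ih => simp only [List.cons_append, expl]; exact ih _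

omit [Fintype ι] [DecidableEq ι] in
theorem expl_flipS (w : ι → ℕ) (d : ℤ) (l : List (ι × Bool)) :
    expl w d (flipS l) = expl w d l := by
  induction l generalizing d with
  | nil => rfl
  | cons x l ih =>
    have : flipS (x :: l) = (x.1, !x.2) :: flipS l := rfl
    rw [this]
    simp only [expl]
    exact ih _

theorem arr_nonempty (T : Finset ι) : (arr T).Nonempty := by
  refine ⟨T.toList.map (fun i => (i, true)), ?_⟩
  rw [mem_arr]
  unfold supp
  simp only [List.map_map, Function.comp_def, List.map_id']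
  exact ⟨T.nodup_toList, by simp⟩

theorem card_arr_pos (T : Finset ι) : 0 < ((arr T).card : ℝ) := by
  exact_mod_cast card_pos.2 (arr_nonempty T)

theorem sum_arr_split {M : Type*} [AddCommMonoid M] (T : Finset ι) (q : ℕ) (hq : q ≤ T.card)
    (F : List (ι × Bool) → List (ι × Bool) → M) :
    ∑ l ∈ arr T, F (l.take q) (l.drop q) =
      ∑ a ∈ parr T q, ∑ b ∈ arr (T \ supp a), F a b := by
  rw [sum_sigma']
  refine sum_bij' (fun l _ => (⟨l.take q, l.drop q⟩ : Sigma fun _ => List (ι × Bool)))
    (fun x _ => x.1 ++ x.2) ?_ ?_ ?_ ?_ ?_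
  · intro l hl
    have hlen := length_arr hl
    rw [mem_arr] at hl
    obtain ⟨h1, h2⟩ := hl
    rw [mem_sigma, mem_parr, mem_arr]
    have e : l.take q ++ l.drop q = l := List.take_append_drop q l
    have h1' := h1
    rw [← e, List.map_append, List.nodup_append] at h1'
    obtain ⟨n1, n2, n3⟩ := h1'
    have h2' := h2
    rw [← e, supp_append] at h2'
    refine ⟨⟨?_, n1, ?_⟩, n2, ?_⟩
    · rw [List.length_take]; omega
    · rw [← h2']; exact subset_union_left
    · show supp (l.drop q) = T \ supp (l.take q)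
      rw [← h2']
      ext i
      simp only [mem_sdiff, mem_union]
      constructor
      · intro hi
        refine ⟨Or.inr hi, fun hi' => ?_⟩
        unfold supp at hi hi'
        rw [List.mem_toFinset] at hi hi'
        exact n3 i hi' i hi rfl
      · rintro ⟨hi | hi, hn⟩
        · exact absurd hi hn
        · exact hi
  · rintro ⟨a, b⟩ hx
    rw [mem_sigma, mem_parr, mem_arr] at hx
    obtain ⟨⟨ha1, ha2, ha3⟩, hb1, hb2⟩ := hx
    simp only at ha1 ha2 ha3 hb1 hb2 ⊢
    rw [mem_arr]
    refine ⟨?_, ?_⟩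
    · rw [List.map_append, List.nodup_append]
      refine ⟨ha2, hb1, ?_⟩
      intro i hi j hj hij
      subst hij
      have h1 : i ∈ supp a := by unfold supp; exact List.mem_toFinset.2 hi
      have h2 : i ∈ supp b := by unfold supp; exact List.mem_toFinset.2 hj
      rw [hb2, mem_sdiff] at h2
      exact h2.2 h1
    · rw [supp_append, hb2]
      exact union_sdiff_of_subset ha3
  · intro l _
    simp
  · rintro ⟨a, b⟩ hx
    rw [mem_sigma, mem_parr] at hx
    have ha : a.length = q := hx.1.1
    have e1 : (a ++ b).take q = a := by rw [← ha]; simp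
    have e2 : (a ++ b).drop q = b := by rw [← ha]; simp
    show (⟨(a ++ b).take q, (a ++ b).drop q⟩ : Sigma fun _ => List (ι × Bool)) = ⟨a, b⟩
    rw [e1, e2]
  · intro l _
    rfl

theorem sum_arr_rotate {M : Type*} [AddCommMonoid M] (T : Finset ι) (z : ℕ)
    (F : List (ι × Bool) → M) :
    ∑ l ∈ arr T, F (l.rotate z) = ∑ l ∈ arr T, F l := by
  refine sum_comp_inj (arr T) (fun l => l.rotate z) ?_ ?_ F
  · intro l hl
    exact arr_perm hl (List.rotate_perm l z)
  · intro l _ l' _ h
    exact List.rotate_injective z h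

theorem card_arr (T : Finset ι) : (arr T).card = T.card.factorial * 2 ^ T.card := by
  have h1 : (T.toList.permutations.toFinset).card = T.card.factorial := by
    rw [List.toFinset_card_of_nodup (List.nodup_permutations _ T.nodup_toList),
      List.length_permutations, Finset.length_toList]
  have h2 : (lists Bool T.card).card = 2 ^ T.card := by
    unfold lists
    rw [card_image_of_injective _ List.ofFn_injective]
    simp
  rw [← h1, ← h2, ← card_product]
  refine card_bij' (fun l _ => (l.map Prod.fst, l.map Prod.snd))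
    (fun x _ => x.1.zip x.2) ?_ ?_ ?_ ?_
  · intro l hl
    have hlen := length_arr hl
    rw [mem_arr] at hl
    rw [mem_product, List.mem_toFinset, List.mem_permutations, mem_lists]
    refine ⟨?_, by simpa using hlen⟩
    rw [List.perm_ext_iff_of_nodup hl.1 T.nodup_toList]
    intro i
    rw [mem_toList, ← hl.2]
    unfold supp
    rw [List.mem_toFinset]
  · rintro ⟨a, b⟩ hx
    rw [mem_product, List.mem_toFinset, List.mem_permutations, mem_lists] at hx
    obtain ⟨ha, hb⟩ := hx
    simp only at ha hb ⊢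
    have hla : a.length = b.length := by rw [ha.length_eq, hb]; simp
    rw [mem_arr]
    have e : (a.zip b).map Prod.fst = a := List.map_fst_zip (le_of_eq hla)
    unfold supp
    rw [e]
    refine ⟨ha.nodup_iff.2 T.nodup_toList, ?_⟩
    rw [List.toFinset_eq_of_perm _ _ ha]
    simp
  · intro l _
    exact (List.zip_of_prod rfl rfl).symm
  · rintro ⟨a, b⟩ hx
    rw [mem_product, List.mem_toFinset, List.mem_permutations, mem_lists] at hx
    obtain ⟨ha, hb⟩ := hx
    simp only at ha hb ⊢
    have hla : a.length = b.length := by rw [ha.length_eq, hb]; simp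
    rw [List.map_fst_zip (le_of_eq hla), List.map_snd_zip (le_of_eq hla.symm)]

end A

end Pool.Agent.Helper54.SAW
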