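import Mathlib

set_option autoImplicit false

/-!
# Planar self-avoiding walks: definitions

Part A: signed arrangements of a finite set of labels (widths `w`, heights `v`).
Part B/C: walks on the square lattice as lists of steps.
-/

namespace Pool.Agent.Helper54.SAW

/-! ## Part A : signed arrangements -/

section Arr

variable {ι : Type*}

/-- total width of a list of signed labels -/
def Wd (w : ι → ℕ) (l : List (ι × Bool)) : ℤ := (l.map fun x => (w x.1 : ℤ)).sum

/-- signed height of a list of signed labels -/
def Ht (v : ι → ℤ) (l : List (ι × Bool)) : ℤ :=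
  (l.map fun x => if x.2 then v x.1 else -v x.1).sum

/-- exploration: the difference (left depth) - (right depth) after reading the list, started
from `d`; the next entry is a left one if the difference is `≤ 0`, a right one otherwise. -/
def expl (w : ι → ℕ) : ℤ → List (ι × Bool) → ℤ
  | d, [] => d
  | d, x :: l => expl w (if d ≤ 0 then d + (w x.1 : ℤ) else d - (w x.1 : ℤ)) l

/-- change all signs -/
def flipS (l : List (ι × Bool)) : List (ι × Bool) := l.map fun x => (x.1, !x.2)

/-- number of zeros of the exploration in `[1, m]` -/
def Kz (w : ι → ℕ) (m : ℕ) (l : List (ι × Bool)) : ℕ :=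
  ((Finset.Icc 1 m).filter (fun z => expl w 0 (l.take z) = 0)).card

/-- positive height at every zero of the exploration in `[1, m]` -/
def Pos (w : ι → ℕ) (v : ι → ℤ) (m : ℕ) (l : List (ι × Bool)) : Prop :=
  ∀ z : ℕ, 1 ≤ z → z ≤ m → expl w 0 (l.take z) = 0 → 0 < Ht v (l.take z)

/-- the list `p` is valid at the centre `j`, with sign `e` -/
def Val2 (w : ι → ℕ) (v : ι → ℤ) (p : List (ι × Bool)) (j : ℕ) (e : ℤ) : Prop :=
  ∀ a b : ℕ, 1 ≤ a → a ≤ j → 1 ≤ b → j + b ≤ p.length →
    Wd w ((p.take j).drop (j - a)) = Wd w ((p.drop j).take b) →
    0 < e * (Ht v ((p.take j).drop (j - a)) + Ht v ((p.drop j).take b))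

variable [Fintype ι] [DecidableEq ι]

/-- the set of labels occurring in a list -/
def supp (l : List (ι × Bool)) : Finset ι := (l.map Prod.fst).toFinset

/-- all lists of length `n` -/
def lists (α : Type*) [Fintype α] [DecidableEq α] (n : ℕ) : Finset (List α) :=
  (Finset.univ : Finset (Fin n → α)).image List.ofFn

/-- signed arrangements of `T`: every label of `T` occurs exactly once, with a sign. -/
def arr (T : Finset ι) : Finset (List (ι × Bool)) :=
  (lists (ι × Bool) T.card).filter (fun l => (l.map Prod.fst).Nodup ∧ supp l = T)

/-- signed arrangements of `q` labels of `T`. -/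
def parr (T : Finset ι) (q : ℕ) : Finset (List (ι × Bool)) :=
  (lists (ι × Bool) q).filter (fun l => (l.map Prod.fst).Nodup ∧ supp l ⊆ T)

/-- number of arrangements of `T` in which the first `a` and the next `b` labels have the same
total width. -/
def npi (w : ι → ℕ) (T : Finset ι) (a b : ℕ) : ℕ :=
  ((arr T).filter (fun l => Wd w (l.take a) = Wd w ((l.drop a).take b))).card

open Classical in
/-- number of arrangements of `T` which are positive up to `m`. -/
noncomputable def nPos (w : ι → ℕ) (v : ι → ℤ) (T : Finset ι) (m : ℕ) : ℕ :=
  ((arr T).filter (fun l => Pos w v m l)).card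

open Classical in
/-- number of arrangements of `T` which are valid at the centre `j` with sign `e`. -/
noncomputable def nVal (w : ι → ℕ) (v : ι → ℤ) (T : Finset ι) (j : ℕ) (e : ℤ) : ℕ :=
  ((arr T).filter (fun l => Val2 w v l j e)).card

end Arr

/-- the group of signed permutations -/
abbrev SPerm (k : ℕ) : Type := Equiv.Perm (Fin k) × (Fin k → Bool)

/-- the list of signed labels given by a signed permutation -/
def plist {k : ℕ} (g : SPerm k) : List (Fin k × Bool) := List.ofFn fun i => (g.1 i, g.2 i)

open Classical in
/-- number of centres at which the signed permutation `g` of the pieces is valid -/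
noncomputable def nCen {k : ℕ} (w : Fin k → ℕ) (v : Fin k → ℤ) (g : SPerm k) : ℕ :=
  ((Finset.range (k + 1)).filter
    (fun j => Val2 w v (plist g) j 1 ∨ Val2 w v (plist g) j (-1))).card

open Classical in
/-- number of signed permutations of the sequence `x` all of whose partial sums are positive -/
noncomputable def nSA {k : ℕ} (x : Fin k → ℤ) : ℕ :=
  ((Finset.univ : Finset (SPerm k)).filter
    (fun g => ∀ n : ℕ, 1 ≤ n → n ≤ k → 0 < Ht x ((plist g).take n))).card

/-! ## Part B/C : walks -/

/-- a step of the square lattice: axis and sign -/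
abbrev St : Type := Fin 2 × Bool

/-- first coordinate of a step -/
def dx (s : St) : ℤ := if s.1 = 0 then (if s.2 then 1 else -1) else 0

/-- second coordinate of a step -/
def dy (s : St) : ℤ := if s.1 = 1 then (if s.2 then 1 else -1) else 0

/-- displacement (first coordinate) of a list of steps -/
def X (l : List St) : ℤ := (l.map dx).sum

/-- displacement (second coordinate) of a list of steps -/
def Y (l : List St) : ℤ := (l.map dy).sum

/-- reflection `x ↦ -x` of a step -/
def fx (s : St) : St := if s.1 = 0 then (s.1, !s.2) else s

/-- reflection `y ↦ -y` of a step -/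
def fy (s : St) : St := if s.1 = 1 then (s.1, !s.2) else s

/-- self-avoiding: no non-empty part has displacement zero -/
def Saw (l : List St) : Prop := ∀ u v t : List St, l = u ++ v ++ t → v ≠ [] → ¬ (X v = 0 ∧ Y v = 0)

/-- every point of the walk has first coordinate at most that of its endpoint -/
def LeftOK (l : List St) : Prop := ∀ u v : List St, l = u ++ v → 0 ≤ X v

/-- every later point of the walk has first coordinate larger than that of its starting point -/
def RightOK (l : List St) : Prop := ∀ u v : List St, l = u ++ v → u ≠ [] → 0 < X u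

/-- `t` is a cut time of the walk `l` -/
def Cut (l : List St) (t : ℕ) : Prop := LeftOK (l.take t) ∧ RightOK (l.drop t)

/-- the walk reflected after time `t` -/
def fold (l : List St) (t : ℕ) : List St := l.take t ++ (l.drop t).map fx

open Classical in
/-- self-avoiding walks with `n` steps -/
noncomputable def SAWs (n : ℕ) : Finset (List St) := (lists St n).filter Saw

open Classical in
/-- number of valid fold times of `l` with folded endpoint at horizontal distance at most `r` -/
noncomputable def nFold (r : ℕ) (l : List St) : ℕ :=
  ((Finset.range (l.length + 1)).filter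
    (fun t => Cut l t ∧ Saw (fold l t) ∧ |2 * X (l.take t) - X l| ≤ r)).card

/-- irreducible bridge: self-avoiding, no interior cut -/
def Piece (p : List St) : Prop :=
  p ≠ [] ∧ LeftOK p ∧ RightOK p ∧ Saw p ∧
    ∀ u v : List St, p = u ++ v → u ≠ [] → v ≠ [] → ¬ (LeftOK u ∧ RightOK v)

/-- decomposition of the walk `α ++ P.flatten ++ β` at its cut times in the window
`|2 * level - x| ≤ r`, where `x` is the first coordinate of the endpoint. -/
def Dec (r : ℕ) (α : List St) (P : List (List St)) (β : List St) : Prop :=
  LeftOK α ∧ Saw α ∧ RightOK β ∧ Saw β ∧ (∀ p ∈ P, Piece p) ∧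
  |2 * X α - (X α + X P.flatten + X β)| ≤ r ∧
  |2 * (X α + X P.flatten) - (X α + X P.flatten + X β)| ≤ r ∧
  (∀ u v : List St, α = u ++ v → v ≠ [] → LeftOK u → RightOK v →
    ¬ |2 * X u - (X α + X P.flatten + X β)| ≤ r) ∧
  (∀ u v : List St, β = u ++ v → u ≠ [] → LeftOK u → RightOK v →
    ¬ |2 * (X α + X P.flatten + X u) - (X α + X P.flatten + X β)| ≤ r)

/-- action of a signed permutation on a family of pieces (`false` = reflected) -/
def act {k : ℕ} (g : SPerm k) (f : Fin k → List St) : Fin k → List St :=
  fun i => if g.2 i then f (g.1 i) else (f (g.1 i)).map fy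

open Classical in
/-- far walks -/
noncomputable def Far (n : ℕ) (F : ℤ) : Finset (List St) := (SAWs n).filter (fun l => F ≤ X l)

open Classical in
/-- walks whose maximal first coordinate is at least `M`, with endpoint at horizontal distance at
most `r` -/
noncomputable def Near (n M r : ℕ) : Finset (List St) :=
  (SAWs n).filter (fun l => (∃ t, t ≤ n ∧ (M : ℤ) ≤ X (l.take t)) ∧ |X l| ≤ r)

end Pool.Agent.Helper54.SAW
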