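import Pool.Agent.Helper54.SAW.MainL

set_option autoImplicit false

namespace Pool.Agent.Helper54.SAW

open Finset

theorem saw_iff (l : List St) : Saw l ↔ ∀ a b : ℕ, a < b → b ≤ l.length →
    ¬ (X (l.take a) = X (l.take b) ∧ Y (l.take a) = Y (l.take b)) := by
  constructor
  · intro h a b hab hb ⟨h1, h2⟩
    have e1 : l.take b = l.take a ++ (l.take b).drop a := by
      conv_lhs => rw [← List.take_append_drop a (l.take b)]
      rw [List.take_take, min_eq_left hab.le]
    have e2 : l = l.take a ++ (l.take b).drop a ++ l.drop b := by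
      rw [← e1, List.take_append_drop]
    refine h _ _ _ e2 ?_ ?_
    · intro h0
      have := congrArg List.length h0
      rw [List.length_drop, List.length_take, List.length_nil] at this
      omega
    · have hX : X (l.take b) = X (l.take a) + X ((l.take b).drop a) := by
        conv_lhs => rw [e1]
        simp [X]
      have hY : Y (l.take b) = Y (l.take a) + Y ((l.take b).drop a) := by
        conv_lhs => rw [e1]
        simp [Y]
      constructor <;> linarith
  · rintro h u v t rfl hv ⟨h1, h2⟩
    have hv' : 0 < v.length := List.length_pos_iff.2 hv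
    refine h u.length (u.length + v.length) (by omega)
      (by rw [List.length_append, List.length_append]; omega) ?_
    have e1 : (u ++ v ++ t).take u.length = u := by
      rw [List.append_assoc]; simp
    have e2 : (u ++ v ++ t).take (u.length + v.length) = u ++ v := by
      rw [← List.length_append]
      exact List.take_left' rfl
    rw [e1, e2]
    have hX : X (u ++ v) = X u + X v := by simp [X]
    have hY : Y (u ++ v) = Y u + Y v := by simp [Y]
    constructor <;> linarith

theorem X_take_ofFn {n : ℕ} (s : Fin n → St) (k : ℕ) :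
    X ((List.ofFn s).take k) = ∑ j : Fin n,
      if j.val < k ∧ (s j).1 = 0 then (if (s j).2 then (1 : ℤ) else -1) else 0 := by
  unfold X
  rw [List.map_take, List.map_ofFn, List.sum_take_ofFn, sum_filter]
  apply sum_congr rfl
  intro j _
  unfold dx
  by_cases h1 : j.val < k <;> by_cases h2 : (s j).1 = 0 <;> simp [h1, h2]

theorem Y_take_ofFn {n : ℕ} (s : Fin n → St) (k : ℕ) :
    Y ((List.ofFn s).take k) = ∑ j : Fin n,
      if j.val < k ∧ (s j).1 = 1 then (if (s j).2 then (1 : ℤ) else -1) else 0 := by
  unfold Y
  rw [List.map_take, List.map_ofFn, List.sum_take_ofFn, sum_filter]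
  apply sum_congr rfl
  intro j _
  unfold dy
  by_cases h1 : j.val < k <;> by_cases h2 : (s j).1 = 1 <;> simp [h1, h2]

theorem X_ofFn {n : ℕ} (s : Fin n → St) :
    X (List.ofFn s) = ∑ j : Fin n, if (s j).1 = 0 then (if (s j).2 then (1 : ℤ) else -1) else 0 := by
  unfold X
  rw [List.map_ofFn, List.sum_ofFn]
  rfl

theorem Y_ofFn {n : ℕ} (s : Fin n → St) :
    Y (List.ofFn s) = ∑ j : Fin n, if (s j).1 = 1 then (if (s j).2 then (1 : ℤ) else -1) else 0 := by
  unfold Y
  rw [List.map_ofFn, List.sum_ofFn]
  rfl

theorem saw_ofFn {n : ℕ} (s : Fin n → St) : Saw (List.ofFn s) ↔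
    ∀ k l : Fin (n + 1),
      (fun i : Fin 2 => ∑ j : Fin n,
          if j.val < k.val ∧ (s j).1 = i then (if (s j).2 then (1 : ℤ) else -1) else 0)
        = (fun i : Fin 2 => ∑ j : Fin n,
          if j.val < l.val ∧ (s j).1 = i then (if (s j).2 then (1 : ℤ) else -1) else 0)
      → k = l := by
  rw [saw_iff]
  have key : ∀ a b : ℕ, (fun i : Fin 2 => ∑ j : Fin n,
          if j.val < a ∧ (s j).1 = i then (if (s j).2 then (1 : ℤ) else -1) else 0)
        = (fun i : Fin 2 => ∑ j : Fin n,
          if j.val < b ∧ (s j).1 = i then (if (s j).2 then (1 : ℤ) else -1) else 0) ↔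
      (X ((List.ofFn s).take a) = X ((List.ofFn s).take b) ∧
        Y ((List.ofFn s).take a) = Y ((List.ofFn s).take b)) := by
    intro a b
    rw [X_take_ofFn, X_take_ofFn, Y_take_ofFn, Y_take_ofFn]
    constructor
    · intro h
      exact ⟨congrFun h 0, congrFun h 1⟩
    · rintro ⟨h1, h2⟩
      funext i
      fin_cases i
      · exact h1
      · exact h2
  constructor
  · intro h k l hkl
    rw [key] at hkl
    rcases lt_trichotomy k.val l.val with h1 | h1 | h1
    · exact absurd hkl (h k.val l.val h1 (by have := l.2; simp; omega))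
    · exact Fin.ext h1
    · exact absurd ⟨hkl.1.symm, hkl.2.symm⟩ (h l.val k.val h1 (by have := k.2; simp; omega))
  · intro h a b hab hb hXY
    rw [List.length_ofFn] at hb
    have := h ⟨a, by omega⟩ ⟨b, by omega⟩ ((key a b).2 hXY)
    rw [Fin.mk.injEq] at this
    omega

theorem final : ∃ c : ℝ, 0 < c ∧ ∀ n : ℕ, c * (n : ℝ) ^ (4 / 5 : ℝ) ≤
      (∑ s ∈ Finset.univ.filter (fun s : Fin n → Fin 2 × Bool =>
            ∀ k l : Fin (n + 1),
              (fun i : Fin 2 => ∑ j : Fin n,
                  if j.val < k.val ∧ (s j).1 = i then (if (s j).2 then (1 : ℤ) else -1) else 0)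
                = (fun i : Fin 2 => ∑ j : Fin n,
                  if j.val < l.val ∧ (s j).1 = i then (if (s j).2 then (1 : ℤ) else -1) else 0)
              → k = l),
          ∑ i : Fin 2,
            (∑ j : Fin n, if (s j).1 = i then (if (s j).2 then (1 : ℝ) else -1) else 0) ^ 2)
        / ((Finset.univ.filter (fun s : Fin n → Fin 2 × Bool =>
            ∀ k l : Fin (n + 1),
              (fun i : Fin 2 => ∑ j : Fin n,
                  if j.val < k.val ∧ (s j).1 = i then (if (s j).2 then (1 : ℤ) else -1) else 0)
                = (fun i : Fin 2 => ∑ j : Fin n,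
                  if j.val < l.val ∧ (s j).1 = i then (if (s j).2 then (1 : ℤ) else -1) else 0)
              → k = l)).card : ℝ) := by
  obtain ⟨c, hc, h⟩ := main_lists
  refine ⟨c, hc, ?_⟩
  intro n
  set Φ := Finset.univ.filter (fun s : Fin n → Fin 2 × Bool =>
            ∀ k l : Fin (n + 1),
              (fun i : Fin 2 => ∑ j : Fin n,
                  if j.val < k.val ∧ (s j).1 = i then (if (s j).2 then (1 : ℤ) else -1) else 0)
                = (fun i : Fin 2 => ∑ j : Fin n,
                  if j.val < l.val ∧ (s j).1 = i then (if (s j).2 then (1 : ℤ) else -1) else 0)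
              → k = l) with hΦ
  have hmem : ∀ s : Fin n → St, s ∈ Φ ↔ Saw (List.ofFn s) := by
    intro s
    rw [hΦ, mem_filter, saw_ofFn]
    simp
  have himg : SAWs n = Φ.image List.ofFn := by
    ext l
    rw [mem_SAWs, mem_image]
    constructor
    · rintro ⟨rfl, hl⟩
      exact ⟨l.get, by rw [hmem, List.ofFn_get]; exact hl, List.ofFn_get l⟩
    · rintro ⟨s, hs, rfl⟩
      exact ⟨List.length_ofFn, (hmem s).1 hs⟩
  have hcard : (SAWs n).card = Φ.card := by
    rw [himg, card_image_of_injective _ List.ofFn_injective]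
  have hsum : ∑ l ∈ SAWs n, ((X l : ℝ) ^ 2 + (Y l : ℝ) ^ 2) = ∑ s ∈ Φ, ∑ i : Fin 2,
            (∑ j : Fin n, if (s j).1 = i then (if (s j).2 then (1 : ℝ) else -1) else 0) ^ 2 := by
    rw [himg, sum_image (List.ofFn_injective.injOn)]
    apply sum_congr rfl
    intro s _
    rw [Fin.sum_univ_two, X_ofFn, Y_ofFn]
    push_cast
    rfl
  have hpos : (0 : ℝ) < Φ.card := by
    rw [← hcard]
    have : (SAWs n).Nonempty := by
      refine ⟨List.replicate n ((0 : Fin 2), true), ?_⟩
      rw [mem_SAWs]
      refine ⟨by simp, ?_⟩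
      intro u v t huvt hv h0
      have hv' : v = List.replicate v.length ((0 : Fin 2), true) := by
        rw [List.eq_replicate_iff]
        refine ⟨rfl, fun x hx => ?_⟩
        have : x ∈ List.replicate n ((0 : Fin 2), true) := by
          rw [huvt]; simp [hx]
        exact List.eq_of_mem_replicate this
      have h1 := h0.1
      rw [hv'] at h1
      simp [X, dx] at h1
      exact hv h1
    exact_mod_cast card_pos.2 this
  rw [le_div_iff₀ hpos, ← hsum, ← hcard]
  exact h n

end Pool.Agent.Helper54.SAW
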