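import Pool.Agent.Helper54.SAW.Arr
import Pool.Agent.Helper64.SAW.A1
import Pool.Agent.Helper9.SAW.EK
import Pool.Agent.Helper46.SAW.KSqrt
import Pool.Agent.Helper66.SAW.ValK
import Pool.Agent.Helper44.SAW.Planar
import Pool.Agent.Helper18.SAW.C01
import Pool.Agent.Helper70.SAW.C2a
import Pool.Agent.Helper3.SAW.C2c
import Pool.Agent.Helper89.SAW.Box
import Pool.Agent.Helper48.SAW.SA

set_option autoImplicit false

namespace Pool.Agent.Helper54.SAW

open Finset

section A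

variable {ι : Type*} [Fintype ι] [DecidableEq ι]

/-! ### A1 -/

theorem sumKz_ge (w : ι → ℕ) (T : Finset ι) (hw : ∀ i ∈ T, 1 ≤ w i) (m : ℕ) (hm : m ≤ T.card) :
    ∑ a ∈ Icc 1 m, ∑ b ∈ Icc 1 m, (if a + b ≤ m then npi w T a b else 0)
      ≤ ∑ l ∈ arr T, Kz w m l := Pool.Agent.Helper64.SAW.sumKz_ge w T hw m hm

theorem explore (w : ι → ℕ) (v : ι → ℤ) (T : Finset ι) (hw : ∀ i ∈ T, 1 ≤ w i)
    (j m : ℕ) (hj : m ≤ j) (hm : j + m ≤ T.card) :
    nVal w v T j 1 ≤ nPos w v T m := Pool.Agent.Helper64.SAW.explore w v T hw j m hj hm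

/-! ### A2 -/

theorem EK (w : ι → ℕ) (T : Finset ι) (hw : ∀ i ∈ T, 1 ≤ w i) (R : ℕ)
    (hR : ∑ i ∈ T, w i ≤ R) (m : ℕ) (hm : m ≤ T.card) :
    (((m : ℝ) + 1) * (T.card : ℝ) / (8 * (R : ℝ))) * ((arr T).card : ℝ)
      ≤ ∑ l ∈ arr T, ((Kz w m l : ℝ) + 1) := Pool.Agent.Helper9.SAW.EK w T hw R hR m hm

/-! ### A3 -/

theorem KSqrt (w : ι → ℕ) (T : Finset ι) (m : ℕ) (hm : 1 ≤ m) (h3 : 3 * m ≤ T.card)
    (κ : ℝ) (hκ : 0 < κ)
    (H : ∀ T' : Finset ι, T' ⊆ T → T.card ≤ T'.card + 2 * m →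
      κ * ((arr T').card : ℝ) ≤ ∑ l ∈ arr T', ((Kz w m l : ℝ) + 1)) :
    ∑ l ∈ arr T, 1 / Real.sqrt ((Kz w m l : ℝ) + 1) ≤ (5 / Real.sqrt κ) * ((arr T).card : ℝ) := Pool.Agent.Helper46.SAW.KSqrt w T m hm h3 κ hκ H

/-! ### A4 -/

/-- Sparre Andersen: a signed permutation of `l` integers has all partial sums positive with
probability at most `1 / √(l+1)`. -/
theorem SA (l : ℕ) (x : Fin l → ℤ) :
    Real.sqrt ((l : ℝ) + 1) * (nSA x : ℝ) ≤ (Fintype.card (SPerm l) : ℝ) := Pool.Agent.Helper48.SAW.SA l x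

/-! ### A5 -/

theorem ValK (w : ι → ℕ) (v : ι → ℤ) (T : Finset ι) (m : ℕ) (hm : m ≤ T.card) :
    (nPos w v T m : ℝ) ≤ ∑ l ∈ arr T, 1 / Real.sqrt ((Kz w m l : ℝ) + 1) := Pool.Agent.Helper66.SAW.ValK_of_SA SA w v T m hm

end A

/-! ### B : planarity -/

/-- planarity: at common cut depths of the two strands of a folded self-avoiding walk the
second strand is always on the same side of the first one. -/
theorem planar (A B : List St) (hs : Saw (A ++ B.map fx)) :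
    ∃ e : ℤ, (e = 1 ∨ e = -1) ∧ ∀ A1 a b B1 : List St, A = A1 ++ a → B = b ++ B1 → a ≠ [] → b ≠ [] →
      LeftOK A1 → RightOK a → LeftOK b → RightOK B1 → X a = X b → 0 < e * (Y a + Y b) := Pool.Agent.Helper44.SAW.planar A B hs

/-! ### C0 : basic facts on walks -/

theorem mem_SAWs {n : ℕ} {l : List St} : l ∈ SAWs n ↔ l.length = n ∧ Saw l := Pool.Agent.Helper18.SAW.mem_SAWs

theorem saw_append {u v : List St} (hu : Saw u) (hv : Saw v) (h1 : LeftOK u) (h2 : RightOK v) :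
    Saw (u ++ v) := Pool.Agent.Helper18.SAW.saw_append hu hv h1 h2

theorem saw_fx {l : List St} : Saw (l.map fx) ↔ Saw l := Pool.Agent.Helper18.SAW.saw_fx

theorem saw_fy {l : List St} : Saw (l.map fy) ↔ Saw l := Pool.Agent.Helper18.SAW.saw_fy

/-! ### C1 : unfolding -/

theorem unfold_le (n M r : ℕ) :
    (Near n M r).card ≤ ∑ l ∈ Far n (2 * (M : ℤ) - r), nFold r l := Pool.Agent.Helper18.SAW.unfold_le n M r

/-! ### C2 : decomposition at the cuts in the window -/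

theorem dec_exists (r : ℕ) (l : List St) (hl : Saw l) (h : nFold r l ≠ 0) :
    ∃ (α : List St) (P : List (List St)) (β : List St), l = α ++ P.flatten ++ β ∧ Dec r α P β := Pool.Agent.Helper70.SAW.dec_exists r l hl h

theorem dec_unique (r : ℕ) (α α' β β' : List St) (P P' : List (List St)) (h : Dec r α P β)
    (h' : Dec r α' P' β') (he : α ++ P.flatten ++ β = α' ++ P'.flatten ++ β') :
    α = α' ∧ P = P' ∧ β = β' := Pool.Agent.Helper70.SAW.dec_unique r α α' β β' P P' h h' he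

theorem dec_saw (r : ℕ) (α β : List St) (P : List (List St)) (h : Dec r α P β) :
    Saw (α ++ P.flatten ++ β) := Pool.Agent.Helper70.SAW.dec_saw r α β P h

theorem dec_act (r k : ℕ) (α β : List St) (f : Fin k → List St) (g : SPerm k)
    (h : Dec r α (List.ofFn f) β) :
    Dec r α (List.ofFn (act g f)) β ∧
      (List.ofFn (act g f)).flatten.length = (List.ofFn f).flatten.length ∧
      X (List.ofFn (act g f)).flatten = X (List.ofFn f).flatten := Pool.Agent.Helper3.SAW.dec_act r k α β f g h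

theorem dec_nFold (r k : ℕ) (α β : List St) (f : Fin k → List St) (g : SPerm k)
    (h : Dec r α (List.ofFn f) β) :
    nFold r (α ++ (List.ofFn (act g f)).flatten ++ β)
      ≤ nCen (fun i => (X (f i)).toNat) (fun i => Y (f i)) g := Pool.Agent.Helper3.SAW.dec_nFold r k α β f g h

/-! ### C3 : the box -/

open Classical in
theorem box (n M : ℕ) (hM : 1 ≤ M) (h : (2 * M - 1) ^ 2 ≤ n) :
    (SAWs n).card ≤ 4 * ((SAWs n).filter (fun l => ∃ t, t ≤ n ∧ (M : ℤ) ≤ X (l.take t))).card := Pool.Agent.Helper89.SAW.box n M hM h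

end Pool.Agent.Helper54.SAW
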