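import Pool.Agent.Helper54.SAW.Class

set_option autoImplicit false

namespace Pool.Agent.Helper54.SAW

open Finset

open Classical in
theorem main_lists : ∃ c : ℝ, 0 < c ∧ ∀ n : ℕ, c * (n : ℝ) ^ (4 / 5 : ℝ) * ((SAWs n).card : ℝ)
    ≤ ∑ l ∈ SAWs n, ((X l : ℝ) ^ 2 + (Y l : ℝ) ^ 2) := by
  refine ⟨1 / 36000, by norm_num, ?_⟩
  intro n
  rcases Nat.eq_zero_or_pos n with rfl | hn
  · rw [Nat.cast_zero, Real.zero_rpow (by norm_num)]
    simp only [mul_zero, zero_mul]
    exact sum_nonneg (fun l _ => by positivity)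
  set C : ℝ := ((SAWs n).card : ℝ) with hC
  have hC0 : 0 ≤ C := by positivity
  set S : ℝ := ∑ l ∈ SAWs n, ((X l : ℝ) ^ 2 + (Y l : ℝ) ^ 2) with hS
  set M : ℕ := (Nat.sqrt n + 1) / 2 with hM
  have hsq : 1 ≤ Nat.sqrt n := by
    rw [Nat.le_sqrt]; omega
  have hM1 : 1 ≤ M := by omega
  have hM2 : (2 * M - 1) ^ 2 ≤ n := by
    have h1 : 2 * M - 1 ≤ Nat.sqrt n := by omega
    calc (2 * M - 1) ^ 2 ≤ (Nat.sqrt n) ^ 2 := Nat.pow_le_pow_left h1 2
      _ ≤ n := Nat.sqrt_le' n
  have hM3 : (n : ℝ) ≤ 9 * (M : ℝ) ^ 2 := by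
    have h1 : n < (Nat.sqrt n + 1) ^ 2 := Nat.lt_succ_sqrt' n
    have h2 : Nat.sqrt n + 1 ≤ 3 * M := by omega
    have h3 : n ≤ 9 * M ^ 2 := by nlinarith
    exact_mod_cast h3
  have hMR : (1 : ℝ) ≤ M := by exact_mod_cast hM1
  set a : ℝ := (M : ℝ) ^ (4 / 5 : ℝ) with ha
  have ha1 : 1 ≤ a := Real.one_le_rpow hMR (by norm_num)
  have haM : a ≤ M := by
    calc a ≤ (M : ℝ) ^ (1 : ℝ) := Real.rpow_le_rpow_of_exponent_le hMR (by norm_num)
      _ = M := Real.rpow_one _
  set r : ℕ := ⌊a⌋₊ with hr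
  have hr1 : (r : ℝ) ≤ a := Nat.floor_le (by linarith)
  have hr2 : a < r + 1 := Nat.lt_floor_add_one a
  have hrM : (r : ℤ) ≤ M := by
    have : (r : ℝ) ≤ M := hr1.trans haM
    exact_mod_cast this
  -- the sets
  have hbox := box n M hM1 hM2
  set A := (SAWs n).filter (fun l => ∃ t, t ≤ n ∧ (M : ℤ) ≤ X (l.take t)) with hA
  set B := (SAWs n).filter (fun l => (r : ℤ) < |X l|) with hB
  have hsub : A ⊆ Near n M r ∪ B := by
    intro l hl
    rw [mem_filter] at hl
    rw [mem_union]
    by_cases h : |X l| ≤ (r : ℤ)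
    · left
      unfold Near
      rw [mem_filter]
      exact ⟨hl.1, hl.2, h⟩
    · right
      rw [mem_filter]
      exact ⟨hl.1, not_le.1 h⟩
  have hcount : C ≤ 4 * (((Near n M r).card : ℝ) + (B.card : ℝ)) := by
    have h1 : (SAWs n).card ≤ 4 * ((Near n M r).card + B.card) := by
      calc (SAWs n).card ≤ 4 * A.card := hbox
        _ ≤ 4 * ((Near n M r).card + B.card) := by
          apply Nat.mul_le_mul_left
          exact (card_le_card hsub).trans (card_union_le _ _)
    rw [hC]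
    exact_mod_cast h1
  have hmain : C * a ^ 2 ≤ 4000 * S := by
    by_cases hcase : C / 8 ≤ (B.card : ℝ)
    · -- many walks have |X| > r
      have h1 : ∑ l ∈ B, a ^ 2 ≤ S := by
        calc ∑ l ∈ B, a ^ 2 ≤ ∑ l ∈ B, ((X l : ℝ) ^ 2 + (Y l : ℝ) ^ 2) := by
              apply sum_le_sum
              intro l hl
              rw [mem_filter] at hl
              have h2 : (r : ℤ) + 1 ≤ |X l| := hl.2
              have h3 : (r : ℝ) + 1 ≤ |(X l : ℝ)| := by exact_mod_cast h2
              have h4 : a ≤ |(X l : ℝ)| := by linarith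
              have h5 : a ^ 2 ≤ |(X l : ℝ)| ^ 2 := by
                apply pow_le_pow_left₀ (by linarith) h4
              rw [sq_abs] at h5
              have : 0 ≤ (Y l : ℝ) ^ 2 := by positivity
              linarith
          _ ≤ S := by
              apply sum_le_sum_of_subset_of_nonneg (filter_subset _ _)
              intro l _ _
              positivity
      rw [sum_const, nsmul_eq_mul] at h1
      have h2 : C / 8 * a ^ 2 ≤ S := le_trans (mul_le_mul_of_nonneg_right hcase (by positivity)) h1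
      have h3 : 0 ≤ S := sum_nonneg (fun l _ => by positivity)
      nlinarith
    · rw [not_le] at hcase
      have h1 : C / 8 ≤ ((Near n M r).card : ℝ) := by linarith
      have h2 : ((Near n M r).card : ℝ) ≤
          320 * Real.sqrt ((r : ℝ) + 1) * ((Far n (2 * (M : ℤ) - r)).card : ℝ) := by
        calc ((Near n M r).card : ℝ) ≤ ∑ l ∈ Far n (2 * (M : ℤ) - r), (nFold r l : ℝ) := by
              exact_mod_cast unfold_le n M r
          _ ≤ _ := class_bound n r _
      have h3 : ((Far n (2 * (M : ℤ) - r)).card : ℝ) * (M : ℝ) ^ 2 ≤ S := by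
        have h4 : ∑ l ∈ Far n (2 * (M : ℤ) - r), (M : ℝ) ^ 2 ≤ S := by
          calc ∑ l ∈ Far n (2 * (M : ℤ) - r), (M : ℝ) ^ 2
              ≤ ∑ l ∈ Far n (2 * (M : ℤ) - r), ((X l : ℝ) ^ 2 + (Y l : ℝ) ^ 2) := by
                apply sum_le_sum
                intro l hl
                unfold Far at hl
                rw [mem_filter] at hl
                have h5 : (M : ℤ) ≤ X l := by linarith [hl.2]
                have h6 : (M : ℝ) ≤ (X l : ℝ) := by exact_mod_cast h5
                have h7 : (M : ℝ) ^ 2 ≤ (X l : ℝ) ^ 2 := pow_le_pow_left₀ (by positivity) h6 2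
                have : 0 ≤ (Y l : ℝ) ^ 2 := by positivity
                linarith
            _ ≤ S := by
                apply sum_le_sum_of_subset_of_nonneg
                · unfold Far; exact filter_subset _ _
                · intro l _ _
                  positivity
        rwa [sum_const, nsmul_eq_mul] at h4
      -- sqrt (r+1) <= sqrt (2 a), and  M^2 = a^2 sqrt a
      have h4 : (M : ℝ) ^ 2 = a ^ 2 * Real.sqrt a := by
        rw [ha, Real.sqrt_eq_rpow, ← Real.rpow_mul (by positivity), ← Real.rpow_natCast,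
          ← Real.rpow_natCast, ← Real.rpow_mul (by positivity), ← Real.rpow_add (by positivity)]
        norm_num
      have h5 : Real.sqrt ((r : ℝ) + 1) ≤ 3 / 2 * Real.sqrt a := by
        have h6 : (r : ℝ) + 1 ≤ (3 / 2) ^ 2 * a := by nlinarith
        calc Real.sqrt ((r : ℝ) + 1) ≤ Real.sqrt ((3 / 2) ^ 2 * a) := Real.sqrt_le_sqrt h6
          _ = 3 / 2 * Real.sqrt a := by
            rw [Real.sqrt_mul (by positivity), Real.sqrt_sq (by norm_num)]
      have h6 : 0 < Real.sqrt a := Real.sqrt_pos.2 (by linarith)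
      set Fc : ℝ := ((Far n (2 * (M : ℤ) - r)).card : ℝ) with hFc
      have hF0 : 0 ≤ Fc := by positivity
      -- C/8 <= 480 sqrt a Fc
      have h7 : C / 8 ≤ 480 * (Real.sqrt a * Fc) := by
        calc C / 8 ≤ _ := h1
          _ ≤ _ := h2
          _ ≤ 320 * (3 / 2 * Real.sqrt a) * Fc := by
            apply mul_le_mul_of_nonneg_right _ hF0
            linarith
          _ = _ := by ring
      have h8 : Fc * (a ^ 2 * Real.sqrt a) ≤ S := by rw [← h4]; exact h3
      have h9 : C / 8 * a ^ 2 ≤ 480 * S := by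
        calc C / 8 * a ^ 2 ≤ 480 * (Real.sqrt a * Fc) * a ^ 2 :=
              mul_le_mul_of_nonneg_right h7 (by positivity)
          _ = 480 * (Fc * (a ^ 2 * Real.sqrt a)) := by ring
          _ ≤ 480 * S := by linarith
      have h10 : 0 ≤ S := sum_nonneg (fun l _ => by positivity)
      linarith
  have hn45 : (n : ℝ) ^ (4 / 5 : ℝ) ≤ 9 * a ^ 2 := by
    calc (n : ℝ) ^ (4 / 5 : ℝ) ≤ (9 * (M : ℝ) ^ 2) ^ (4 / 5 : ℝ) :=
          Real.rpow_le_rpow (by positivity) hM3 (by norm_num)
      _ = (9 : ℝ) ^ (4 / 5 : ℝ) * ((M : ℝ) ^ 2) ^ (4 / 5 : ℝ) :=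
          Real.mul_rpow (by norm_num) (by positivity)
      _ ≤ 9 * a ^ 2 := by
          have e1 : (9 : ℝ) ^ (4 / 5 : ℝ) ≤ 9 := by
            calc (9 : ℝ) ^ (4 / 5 : ℝ) ≤ (9 : ℝ) ^ (1 : ℝ) :=
                  Real.rpow_le_rpow_of_exponent_le (by norm_num) (by norm_num)
              _ = 9 := Real.rpow_one _
          have e2 : ((M : ℝ) ^ 2) ^ (4 / 5 : ℝ) = a ^ 2 := by
            rw [ha, ← Real.rpow_natCast, ← Real.rpow_natCast, ← Real.rpow_mul (by positivity),
              ← Real.rpow_mul (by positivity)]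
            ring_nf
          rw [e2]
          exact mul_le_mul_of_nonneg_right e1 (by positivity)
  calc 1 / 36000 * (n : ℝ) ^ (4 / 5 : ℝ) * C ≤ 1 / 36000 * (9 * a ^ 2) * C := by
        apply mul_le_mul_of_nonneg_right _ hC0
        linarith
    _ = 1 / 4000 * (C * a ^ 2) := by ring
    _ ≤ S := by linarith

end Pool.Agent.Helper54.SAW
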