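import Pool.Agent.Helper54.SAW.Link

set_option autoImplicit false

namespace Pool.Agent.Helper54.SAW

open Finset

section A

variable {ι : Type*} [Fintype ι] [DecidableEq ι]

omit [Fintype ι] [DecidableEq ι] in
theorem val2_flipS (w : ι → ℕ) (v : ι → ℤ) (l : List (ι × Bool)) (j : ℕ) (e : ℤ)
    (h : Val2 w v l j e) : Val2 w v (flipS l) j (-e) := by
  intro a b ha haj hb hbl hW
  rw [flipS_take, flipS_drop, flipS_drop, flipS_take, Wd_flipS, Wd_flipS] at hW
  rw [flipS_take, flipS_drop, flipS_drop, flipS_take, Ht_flipS, Ht_flipS]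
  have := h a b ha haj hb (by simpa [flipS] using hbl) hW
  nlinarith

theorem nVal_neg (w : ι → ℕ) (v : ι → ℤ) (T : Finset ι) (j : ℕ) :
    nVal w v T j (-1) ≤ nVal w v T j 1 := by
  classical
  unfold nVal
  refine card_le_card_of_injOn flipS ?_ ?_
  · intro l hl
    rw [mem_coe, mem_filter] at hl ⊢
    refine ⟨arr_flipS hl.1, ?_⟩
    have := val2_flipS w v l j (-1) hl.2
    simpa using this
  · intro l _ l' _ h
    rw [← flipS_flipS l, ← flipS_flipS l', h]

theorem nVal_le_card (w : ι → ℕ) (v : ι → ℤ) (T : Finset ι) (j : ℕ) (e : ℤ) :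
    nVal w v T j e ≤ (arr T).card := by
  classical
  unfold nVal
  exact card_filter_le _ _

/-- the bound for a single centre -/
theorem nVal_bound (w : ι → ℕ) (v : ι → ℤ) (T : Finset ι) (hw : ∀ i ∈ T, 1 ≤ w i) (R : ℕ)
    (hR : ∑ i ∈ T, w i ≤ R) (hT : 1 ≤ T.card) (j : ℕ) (hj : j ≤ T.card) :
    (nVal w v T j 1 : ℝ) ≤ 5 * Real.sqrt (32 * R / T.card) *
      (1 / Real.sqrt ((j : ℝ) + 1) + 1 / Real.sqrt (((T.card - j : ℕ) : ℝ) + 1)) *
        ((arr T).card : ℝ) := by
  have hTR : (T.card : ℝ) ≤ R := by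
    have : T.card ≤ ∑ i ∈ T, w i := by
      calc T.card = ∑ i ∈ T, 1 := by simp
        _ ≤ _ := sum_le_sum hw
    exact_mod_cast this.trans hR
  have hk : (0 : ℝ) < T.card := by exact_mod_cast hT
  have hRpos : (0 : ℝ) < R := lt_of_lt_of_le hk hTR
  have hN := card_arr_pos T
  set m0 := min j (T.card - j) with hm0
  -- it suffices to have the bound with s = m0 + 1
  have key : (nVal w v T j 1 : ℝ) ≤ 5 * Real.sqrt (32 * R / T.card) *
      (1 / Real.sqrt ((m0 : ℝ) + 1)) * ((arr T).card : ℝ) := by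
    rcases Nat.lt_or_ge m0 2 with hlt | hge
    · have h1 : (nVal w v T j 1 : ℝ) ≤ ((arr T).card : ℝ) := by
        exact_mod_cast nVal_le_card w v T j 1
      have h2 : (1 : ℝ) ≤ 5 * Real.sqrt (32 * R / T.card) * (1 / Real.sqrt ((m0 : ℝ) + 1)) := by
        have h3 : (4 : ℝ) ≤ Real.sqrt (32 * R / T.card) := by
          apply Real.le_sqrt_of_sq_le
          rw [le_div_iff₀ hk]
          nlinarith
        have h4 : Real.sqrt ((m0 : ℝ) + 1) ≤ 2 := by
          rw [Real.sqrt_le_left (by norm_num)]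
          have : (m0 : ℝ) ≤ 1 := by exact_mod_cast Nat.lt_succ_iff.1 hlt
          linarith
        have h5 : 0 < Real.sqrt ((m0 : ℝ) + 1) := Real.sqrt_pos.2 (by positivity)
        have h6 : (1 / 2 : ℝ) ≤ 1 / Real.sqrt ((m0 : ℝ) + 1) := by
          apply one_div_le_one_div_of_le h5 h4
        nlinarith
      calc (nVal w v T j 1 : ℝ) ≤ 1 * ((arr T).card : ℝ) := by linarith
        _ ≤ _ := mul_le_mul_of_nonneg_right h2 hN.le
    · set m := m0 / 2 with hm
      have hm1 : 1 ≤ m := by omega
      have h2m : 2 * m ≤ m0 := by omega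
      have hm0j : m0 ≤ j := min_le_left _ _
      have hm0k : m0 ≤ T.card - j := min_le_right _ _
      have h2m0 : 2 * m0 ≤ T.card := by omega
      have h3 : 3 * m ≤ T.card := by omega
      set κ : ℝ := ((m : ℝ) + 1) * ((T.card : ℝ) - 2 * m) / (8 * R) with hκ
      have hmR : (2 : ℝ) * m ≤ m0 := by exact_mod_cast h2m
      have h2m0R : (2 : ℝ) * m0 ≤ T.card := by exact_mod_cast h2m0
      have hsub : (T.card : ℝ) / 2 ≤ (T.card : ℝ) - 2 * m := by linarith
      have hκpos : 0 < κ := by
        rw [hκ]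
        apply div_pos _ (by positivity)
        apply mul_pos (by positivity)
        linarith
      have hκlow : ((m0 : ℝ) + 1) * T.card / (32 * R) ≤ κ := by
        have hmm : (m0 : ℝ) ≤ 2 * m + 1 := by
          have : m0 ≤ 2 * m + 1 := by omega
          exact_mod_cast this
        have e1 : ((m0 : ℝ) + 1) * T.card / (32 * R) = (((m0 : ℝ) + 1) / 2 * (T.card / 2)) / (8 * R) := by
          field_simp
          ring
        rw [e1, hκ]
        apply div_le_div_of_nonneg_right _ (by positivity)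
        apply mul_le_mul _ hsub (by positivity) (by positivity)
        linarith
      have H : ∀ T' : Finset ι, T' ⊆ T → T.card ≤ T'.card + 2 * m →
          κ * ((arr T').card : ℝ) ≤ ∑ l ∈ arr T', ((Kz w m l : ℝ) + 1) := by
        intro T' hT' hc
        refine le_trans ?_ (EK w T' (fun i hi => hw i (hT' hi)) R
          (le_trans (sum_le_sum_of_subset hT') hR) m (by omega))
        apply mul_le_mul_of_nonneg_right _ (by positivity)
        rw [hκ]
        apply div_le_div_of_nonneg_right _ (by positivity)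
        apply mul_le_mul_of_nonneg_left _ (by positivity)
        have : (T.card : ℝ) ≤ T'.card + 2 * m := by exact_mod_cast hc
        linarith
      have h4 := KSqrt w T m hm1 h3 κ hκpos H
      have h5 := ValK w v T m (by omega)
      have h6 : (nVal w v T j 1 : ℝ) ≤ nPos w v T m := by
        exact_mod_cast explore w v T hw j m (by omega) (by omega)
      have h7 : 5 / Real.sqrt κ ≤ 5 * Real.sqrt (32 * R / T.card) *
          (1 / Real.sqrt ((m0 : ℝ) + 1)) := by
        have hpos : 0 < ((m0 : ℝ) + 1) * T.card / (32 * R) := by positivity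
        have h8 : 5 / Real.sqrt κ ≤ 5 / Real.sqrt (((m0 : ℝ) + 1) * T.card / (32 * R)) := by
          apply div_le_div_of_nonneg_left (by norm_num) (Real.sqrt_pos.2 hpos)
          exact Real.sqrt_le_sqrt hκlow
        refine h8.trans (le_of_eq ?_)
        have e2 : ((m0 : ℝ) + 1) * T.card / (32 * R) = ((m0 : ℝ) + 1) / (32 * R / T.card) := by
          field_simp
        rw [e2, Real.sqrt_div (by positivity)]
        have : 0 < Real.sqrt ((m0 : ℝ) + 1) := Real.sqrt_pos.2 (by positivity)
        have : 0 < Real.sqrt (32 * R / T.card) := Real.sqrt_pos.2 (by positivity)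
        field_simp
      calc (nVal w v T j 1 : ℝ) ≤ _ := h6
        _ ≤ _ := h5
        _ ≤ _ := h4
        _ ≤ _ := mul_le_mul_of_nonneg_right h7 hN.le
  refine key.trans ?_
  apply mul_le_mul_of_nonneg_right _ hN.le
  apply mul_le_mul_of_nonneg_left _ (by positivity)
  rcases min_cases j (T.card - j) with ⟨h, _⟩ | ⟨h, _⟩
  · rw [hm0, h]
    have : 0 ≤ 1 / Real.sqrt (((T.card - j : ℕ) : ℝ) + 1) := by positivity
    linarith
  · rw [hm0, h]
    have : 0 ≤ 1 / Real.sqrt ((j : ℝ) + 1) := by positivity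
    linarith

end A

theorem sum_inv_sqrt (n : ℕ) :
    ∑ i ∈ range n, 1 / Real.sqrt ((i : ℝ) + 1) ≤ 2 * Real.sqrt n := by
  induction n with
  | zero => simp
  | succ n ih =>
    rw [sum_range_succ]
    push_cast
    have h1 : 0 < Real.sqrt ((n : ℝ) + 1) := Real.sqrt_pos.2 (by positivity)
    have h2 : 0 ≤ Real.sqrt (n : ℝ) := Real.sqrt_nonneg _
    have h3 : Real.sqrt ((n : ℝ) + 1) ^ 2 = n + 1 := Real.sq_sqrt (by positivity)
    have h4 : Real.sqrt (n : ℝ) ^ 2 = n := Real.sq_sqrt (by positivity)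
    have h5 : 1 / Real.sqrt ((n : ℝ) + 1) ≤ 2 * (Real.sqrt ((n : ℝ) + 1) - Real.sqrt n) := by
      rw [div_le_iff₀ h1]
      nlinarith [sq_nonneg (Real.sqrt ((n : ℝ) + 1) - Real.sqrt n)]
    linarith

theorem plist_injective {k : ℕ} : Function.Injective (plist : SPerm k → List (Fin k × Bool)) := by
  intro g g' h
  unfold plist at h
  have := List.ofFn_injective h
  ext i
  · have := congrFun this i
    simp only [Prod.mk.injEq] at this
    rw [this.1]
  · have := congrFun this i
    simp only [Prod.mk.injEq] at this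
    rw [this.2]

theorem plist_mem {k : ℕ} (g : SPerm k) : plist g ∈ arr (univ : Finset (Fin k)) := by
  rw [mem_arr]
  have e : (plist g).map Prod.fst = List.ofFn (fun i => g.1 i) := by
    unfold plist
    rw [List.map_ofFn]
    rfl
  constructor
  · rw [e, List.nodup_ofFn]
    exact g.1.injective
  · unfold supp
    rw [e]
    ext i
    simp only [List.mem_toFinset, List.mem_ofFn, mem_univ, iff_true]
    exact ⟨g.1.symm i, by simp⟩

theorem card_SPerm (k : ℕ) : Fintype.card (SPerm k) = k.factorial * 2 ^ k := by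
  rw [Fintype.card_prod, Fintype.card_perm, Fintype.card_fun]
  simp

theorem card_arr_univ (k : ℕ) : (arr (univ : Finset (Fin k))).card = Fintype.card (SPerm k) := by
  rw [card_arr, card_SPerm]
  simp

open Classical in
theorem count_plist_le {k : ℕ} (w : Fin k → ℕ) (v : Fin k → ℤ) (j : ℕ) (e : ℤ) :
    ((univ : Finset (SPerm k)).filter (fun g => Val2 w v (plist g) j e)).card
      ≤ nVal w v univ j e := by
  unfold nVal
  refine card_le_card_of_injOn plist ?_ (plist_injective.injOn)
  intro g hg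
  rw [mem_coe, mem_filter] at hg ⊢
  exact ⟨plist_mem g, hg.2⟩

theorem thmA (k : ℕ) (w : Fin k → ℕ) (hw : ∀ i, 1 ≤ w i) (v : Fin k → ℤ) (R : ℕ)
    (hR : ∑ i, w i ≤ R) :
    ∑ g : SPerm k, (nCen w v g : ℝ)
      ≤ 320 * Real.sqrt ((R : ℝ) + 1) * (Fintype.card (SPerm k) : ℝ) := by
  classical
  set N : ℝ := (Fintype.card (SPerm k) : ℝ) with hN
  have hNpos : 0 < N := by
    rw [hN]; exact_mod_cast Fintype.card_pos
  rcases Nat.eq_zero_or_pos k with rfl | hk
  · have h1 : ∀ g : SPerm 0, (nCen w v g : ℝ) ≤ 1 := by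
      intro g
      unfold nCen
      have : ((Finset.range (0 + 1)).filter
        (fun j => Val2 w v (plist g) j 1 ∨ Val2 w v (plist g) j (-1))).card ≤ 1 :=
        (card_filter_le _ _).trans (by simp)
      exact_mod_cast this
    calc ∑ g : SPerm 0, (nCen w v g : ℝ) ≤ ∑ g : SPerm 0, (1 : ℝ) := sum_le_sum (fun g _ => h1 g)
      _ = N := by simp [hN, card_univ]
      _ ≤ 320 * Real.sqrt ((R : ℝ) + 1) * N := by
        have : (1 : ℝ) ≤ Real.sqrt ((R : ℝ) + 1) := by
          rw [Real.one_le_sqrt]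
          have : (0 : ℝ) ≤ R := Nat.cast_nonneg _
          linarith
        nlinarith
  · have hcard : (univ : Finset (Fin k)).card = k := by simp
    have h1 : ∑ g : SPerm k, (nCen w v g : ℝ) ≤
        ∑ j ∈ range (k + 1), ((nVal w v univ j 1 : ℝ) + (nVal w v univ j (-1) : ℝ)) := by
      have e1 : ∀ g : SPerm k, (nCen w v g : ℝ) ≤
          ∑ j ∈ range (k + 1), ((if Val2 w v (plist g) j 1 then (1 : ℝ) else 0) +
            (if Val2 w v (plist g) j (-1) then (1 : ℝ) else 0)) := by
        intro g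
        unfold nCen
        rw [card_filter]
        push_cast
        apply sum_le_sum
        intro j _
        by_cases h1 : Val2 w v (plist g) j 1 <;> by_cases h2 : Val2 w v (plist g) j (-1) <;>
          simp [h1, h2]
      refine (sum_le_sum (fun g _ => e1 g)).trans ?_
      rw [sum_comm]
      apply sum_le_sum
      intro j _
      rw [sum_add_distrib, Finset.sum_boole, Finset.sum_boole]
      apply add_le_add
      · exact_mod_cast count_plist_le w v j 1
      · exact_mod_cast count_plist_le w v j (-1)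
    set B : ℕ → ℝ := fun j => 5 * Real.sqrt (32 * R / k) *
      (1 / Real.sqrt ((j : ℝ) + 1) + 1 / Real.sqrt (((k - j : ℕ) : ℝ) + 1)) * N with hB
    have h2 : ∀ j ∈ range (k + 1), ((nVal w v univ j 1 : ℝ) + (nVal w v univ j (-1) : ℝ))
        ≤ 2 * B j := by
      intro j hj
      have hj' : j ≤ k := Nat.lt_succ_iff.1 (mem_range.1 hj)
      have h3 := nVal_bound w v univ (fun i _ => hw i) R hR (by rw [hcard]; exact hk) j
        (by rw [hcard]; exact hj')
      rw [hcard, card_arr_univ] at h3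
      have h4 : (nVal w v univ j (-1) : ℝ) ≤ nVal w v univ j 1 := by
        exact_mod_cast nVal_neg w v univ j
      have h5 : (nVal w v univ j 1 : ℝ) ≤ B j := h3
      linarith
    have h3 : ∑ j ∈ range (k + 1), 2 * B j ≤
        40 * Real.sqrt (32 * R / k) * Real.sqrt ((k : ℝ) + 1) * N := by
      have e1 : ∑ j ∈ range (k + 1), 1 / Real.sqrt (((k - j : ℕ) : ℝ) + 1) =
          ∑ j ∈ range (k + 1), 1 / Real.sqrt ((j : ℝ) + 1) := by
        have := Finset.sum_range_reflect (fun j => 1 / Real.sqrt ((j : ℝ) + 1)) (k + 1)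
        rw [← this]
        apply sum_congr rfl
        intro j _
        have : k + 1 - 1 - j = k - j := by omega
        rw [this]
      have e2 := sum_inv_sqrt (k + 1)
      push_cast at e2
      have e3 : ∑ j ∈ range (k + 1), 2 * B j = 10 * Real.sqrt (32 * R / k) * N *
          (∑ j ∈ range (k + 1), 1 / Real.sqrt ((j : ℝ) + 1) +
            ∑ j ∈ range (k + 1), 1 / Real.sqrt (((k - j : ℕ) : ℝ) + 1)) := by
        rw [← sum_add_distrib, mul_sum]
        apply sum_congr rfl
        intro j _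
        rw [hB]
        ring
      rw [e3, e1]
      have e4 : 0 ≤ 10 * Real.sqrt (32 * R / k) * N := by positivity
      nlinarith [mul_le_mul_of_nonneg_left e2 e4]
    have h4 : Real.sqrt (32 * R / k) * Real.sqrt ((k : ℝ) + 1) ≤ 8 * Real.sqrt ((R : ℝ) + 1) := by
      rw [← Real.sqrt_mul (by positivity)]
      have e1 : (32 * (R : ℝ) / k) * ((k : ℝ) + 1) ≤ 8 ^ 2 * ((R : ℝ) + 1) := by
        have hk' : (1 : ℝ) ≤ k := by exact_mod_cast hk
        have hk0 : (0 : ℝ) < k := by linarith
        rw [div_mul_eq_mul_div, div_le_iff₀ hk0]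
        have hR0 : (0 : ℝ) ≤ R := Nat.cast_nonneg _
        nlinarith [mul_nonneg hR0 hk0.le, mul_nonneg hR0 (sub_nonneg.2 hk')]
      calc Real.sqrt ((32 * (R : ℝ) / k) * ((k : ℝ) + 1)) ≤ Real.sqrt (8 ^ 2 * ((R : ℝ) + 1)) :=
            Real.sqrt_le_sqrt e1
        _ = 8 * Real.sqrt ((R : ℝ) + 1) := by
            rw [Real.sqrt_mul (by positivity), Real.sqrt_sq (by norm_num)]
    calc ∑ g : SPerm k, (nCen w v g : ℝ) ≤ _ := h1
      _ ≤ _ := sum_le_sum h2
      _ ≤ _ := h3
      _ = 40 * (Real.sqrt (32 * R / k) * Real.sqrt ((k : ℝ) + 1)) * N := by ring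
      _ ≤ 40 * (8 * Real.sqrt ((R : ℝ) + 1)) * N := by
          apply mul_le_mul_of_nonneg_right _ hNpos.le
          linarith
      _ = _ := by ring

end Pool.Agent.Helper54.SAW
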